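import Mathlib

set_option autoImplicit false

namespace Pool.Agent.Results.MP_9149b8_co.Strict

/-- Worst-case coherence: the largest `|⟨f_i, f_j⟩|` over `i ≠ j`. -/
noncomputable def coh {N M : ℕ} (F : Fin N → EuclideanSpace ℝ (Fin M)) : ℝ :=
  sSup {x | ∃ i j, i ≠ j ∧ x = |inner ℝ (F i) (F j)|}

/-- Optimal coherence of `N` unit vectors in `ℝ^M`. -/
noncomputable def mu (N M : ℕ) : ℝ :=
  sInf {c | ∃ F : Fin N → EuclideanSpace ℝ (Fin M), (∀ i, ‖F i‖ = 1) ∧ c = coh F}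

theorem le_coh {N M : ℕ} (F : Fin N → EuclideanSpace ℝ (Fin M)) {i j : Fin N} (h : i ≠ j) :
    |inner ℝ (F i) (F j)| ≤ coh F := by
  unfold coh
  refine le_csSup ?_ ⟨i, j, h, rfl⟩
  apply Set.Finite.bddAbove
  apply (Set.finite_range fun p : Fin N × Fin N => |inner ℝ (F p.1) (F p.2)|).subset
  rintro _ ⟨a, b, -, rfl⟩
  exact ⟨(a, b), rfl⟩

theorem coh_nonneg {N M : ℕ} (F : Fin N → EuclideanSpace ℝ (Fin M)) : 0 ≤ coh F := by
  apply Real.sSup_nonneg
  rintro _ ⟨a, b, -, rfl⟩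
  exact abs_nonneg _

theorem coh_le {N M : ℕ} (hN : 2 ≤ N) (F : Fin N → EuclideanSpace ℝ (Fin M)) {c : ℝ}
    (h : ∀ i j, i < j → |inner ℝ (F i) (F j)| ≤ c) : coh F ≤ c := by
  apply csSup_le
  · exact ⟨_, ⟨0, by omega⟩, ⟨1, by omega⟩, by simp, rfl⟩
  · rintro _ ⟨a, b, hab, rfl⟩
    rcases lt_or_gt_of_ne hab with h1 | h1
    · exact h a b h1
    · rw [real_inner_comm]
      exact h b a h1

theorem coh_lower {N M : ℕ} (hM : M < N) (F : Fin N → EuclideanSpace ℝ (Fin M))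
    (hF : ∀ i, ‖F i‖ = 1) : 1 ≤ N * coh F := by
  have h1 : ¬ LinearIndependent ℝ F := fun h => by
    have := h.fintype_card_le_finrank
    simp at this
    omega
  obtain ⟨g, h2, i0, h3⟩ := Fintype.not_linearIndependent_iff.1 h1
  obtain ⟨k, -, hk⟩ := Finset.exists_max_image Finset.univ (fun i => |g i|) ⟨i0, Finset.mem_univ _⟩
  have h4 : 0 < |g k| := lt_of_lt_of_le (abs_pos.2 h3) (hk i0 (Finset.mem_univ _))
  have h5 : ∑ i, g i * inner ℝ (F k) (F i) = 0 := by
    have : inner ℝ (F k) (∑ i, g i • F i) = 0 := by rw [h2, inner_zero_right]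
    rw [inner_sum] at this
    simpa [inner_smul_right] using this
  rw [← Finset.add_sum_erase _ _ (Finset.mem_univ k), real_inner_self_eq_norm_sq, hF k] at h5
  have h6 : |g k| = |∑ i ∈ Finset.univ.erase k, g i * inner ℝ (F k) (F i)| := by
    rw [← abs_neg (g k)]
    congr 1
    linarith
  have h7 : |g k| ≤ ∑ _i : Fin N, |g k| * coh F := by
    rw [h6]
    refine (Finset.abs_sum_le_sum_abs _ _).trans ?_
    rw [← h6]
    refine le_trans (Finset.sum_le_sum (g := fun _ => |g k| * coh F) fun i hi => ?_)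
      (Finset.sum_le_sum_of_subset_of_nonneg (Finset.subset_univ _)
        fun _ _ _ => mul_nonneg h4.le (coh_nonneg F))
    rw [abs_mul]
    exact mul_le_mul (hk i (Finset.mem_univ _)) (le_coh F (Finset.ne_of_mem_erase hi).symm)
      (abs_nonneg _) h4.le
  simp only [Finset.sum_const, Finset.card_univ, Fintype.card_fin, nsmul_eq_mul] at h7
  nlinarith

/-- Tilt the `i`-th vector into the new coordinate by the amount `t i`. -/
noncomputable def lift {N M : ℕ} (F : Fin N → EuclideanSpace ℝ (Fin M)) (t : Fin N → ℝ)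
    (i : Fin N) : EuclideanSpace ℝ (Fin (M + 1)) :=
  WithLp.toLp 2 (Fin.cons (t i) fun a => √(1 - t i ^ 2) * F i a)

theorem inner_lift {N M : ℕ} (F : Fin N → EuclideanSpace ℝ (Fin M)) (t : Fin N → ℝ)
    (i j : Fin N) : inner ℝ (lift F t i) (lift F t j) =
      t i * t j + √(1 - t i ^ 2) * √(1 - t j ^ 2) * inner ℝ (F i) (F j) := by
  simp only [lift, PiLp.inner_apply, Fin.sum_univ_succ, Fin.cons_zero, Fin.cons_succ,
    RCLike.inner_apply, conj_trivial, Finset.mul_sum]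
  congr 1
  · ring
  · exact Finset.sum_congr rfl fun a _ => by ring

theorem step {N M : ℕ} (hN : 2 ≤ N) (hM : M < N) (F : Fin N → EuclideanSpace ℝ (Fin M))
    (hF : ∀ i, ‖F i‖ = 1) : mu N (M + 1) ≤ coh F - (1 / (4 * N)) * ((1 / (4 * N)) ^ N) ^ 2 := by
  set r : ℝ := 1 / (4 * N) with hr
  have hN' : (2 : ℝ) ≤ N := by exact_mod_cast hN
  have r0 : 0 < r := by positivity
  have r1 : r ≤ 1 := by
    rw [hr, div_le_one (by positivity)]
    linarith
  have hc : 4 * r ≤ coh F := by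
    have := coh_lower hM F hF
    rw [hr, mul_one_div, div_le_iff₀ (by positivity)]
    linarith
  set t : Fin N → ℝ := fun i => r ^ (i.1 + 1) with ht
  have t0 : ∀ i, 0 < t i := fun i => pow_pos r0 _
  have t1 : ∀ i, t i ≤ 1 := fun i => pow_le_one₀ r0.le r1
  have t2 : ∀ i, 0 ≤ 1 - t i ^ 2 := fun i => by nlinarith [t0 i, t1 i]
  have hu : ∀ i, ‖lift F t i‖ = 1 := fun i => by
    have h1 := inner_lift F t i i
    rw [real_inner_self_eq_norm_sq, real_inner_self_eq_norm_sq, hF i,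
      Real.mul_self_sqrt (t2 i)] at h1
    have h2 : ‖lift F t i‖ ^ 2 = 1 := by rw [h1]; ring
    exact (pow_eq_one_iff_of_nonneg (norm_nonneg _) (by norm_num)).1 h2
  refine le_trans (csInf_le ⟨0, ?_⟩ ⟨lift F t, hu, rfl⟩) (coh_le hN _ fun i j hij => ?_)
  · rintro _ ⟨G, -, rfl⟩
    exact coh_nonneg G
  · rw [inner_lift]
    have a1 : t j ≤ t i * r := by
      simp only [ht]
      rw [← pow_succ]
      exact pow_le_pow_of_le_one r0.le r1 (by have := Fin.lt_def.1 hij; omega)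
    have a2 : r ^ N ≤ t i := pow_le_pow_of_le_one r0.le r1 (by have := i.2; omega)
    have a3 : √(1 - t i ^ 2) ≤ 1 - t i ^ 2 / 2 := by
      apply Real.sqrt_le_iff.2 ⟨by nlinarith [t2 i], by nlinarith [sq_nonneg (t i ^ 2)]⟩
    have a4 : √(1 - t j ^ 2) ≤ 1 := Real.sqrt_le_one.2 (by nlinarith [sq_nonneg (t j)])
    have a5 := le_coh F hij.ne
    have a6 : |√(1 - t i ^ 2) * √(1 - t j ^ 2) * inner ℝ (F i) (F j)| ≤
        (1 - t i ^ 2 / 2) * coh F := by
      rw [abs_mul, abs_of_nonneg (by positivity)]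
      refine mul_le_mul ?_ a5 (abs_nonneg _) (by nlinarith [t2 i])
      calc _ ≤ √(1 - t i ^ 2) * 1 := mul_le_mul_of_nonneg_left a4 (Real.sqrt_nonneg _)
        _ ≤ _ := by linarith
    have a7 : (r ^ N) ^ 2 ≤ t i ^ 2 := pow_le_pow_left₀ (by positivity) a2 2
    have a8 : t i * t j ≤ t i ^ 2 * r := by nlinarith [t0 i]
    refine (abs_add_le _ _).trans ?_
    rw [abs_of_pos (mul_pos (t0 i) (t0 j))]
    nlinarith [sq_nonneg (t i), mul_le_mul_of_nonneg_left a7 r0.le,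
      mul_le_mul_of_nonneg_left hc (sq_nonneg (t i))]

theorem result (N M : ℕ) (hN : 2 ≤ N) (h1 : 1 ≤ M) (h2 : M ≤ N - 1) :
    mu N (M + 1) < mu N M := by
  have hN' : (0 : ℝ) < N := by exact_mod_cast (show 0 < N by omega)
  have h3 : (0 : ℝ) < (1 / (4 * N)) * ((1 / (4 * N)) ^ N) ^ 2 := by positivity
  have h4 : mu N (M + 1) + (1 / (4 * N)) * ((1 / (4 * N)) ^ N) ^ 2 ≤ mu N M := by
    apply le_csInf
    · exact ⟨_, fun _ => EuclideanSpace.single ⟨0, by omega⟩ 1, fun _ => by simp, rfl⟩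
    · rintro _ ⟨F, hF, rfl⟩
      have := step hN (by omega) F hF
      linarith
  linarith

end Pool.Agent.Results.MP_9149b8_co.Strict
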